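import Mathlib

/-!
# Descending chains and equidistant points for random point configurations

Interface-free statements: a random configuration (positions `X ω : ι → E`, present indices
`A ω : Set ι`, `ι` countable) satisfying the moment bound `MomentBound` has a.s. no infinite
descending chain and all pairwise distances distinct.
-/

open MeasureTheory Set Filter Topology
open scoped ENNReal NNReal

namespace Pool.Agent.Lib_helper12.ASM

/-- The Euclidean space. -/
abbrev Eu (d : ℕ) := EuclideanSpace ℝ (Fin d)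

variable {d : ℕ}

/-- `desc n x ρ`: the tuples `(y_0, …, y_{n-1})` with
`ρ > |x - y_0| > |y_0 - y_1| > … > |y_{n-2} - y_{n-1}|`. -/
def desc : (n : ℕ) → Eu d → ℝ → Set (Fin n → Eu d)
  | 0, _, _ => univ
  | n + 1, x, ρ => {y | dist x (y 0) < ρ ∧ Fin.tail y ∈ desc n (y 0) (dist x (y 0))}

theorem isOpen_desc (n : ℕ) :
    IsOpen {p : Eu d × ℝ × (Fin n → Eu d) | p.2.2 ∈ desc n p.1 p.2.1} := by
  induction n with
  | zero => simp [desc]
  | succ n ih =>
    have h1 : {p : Eu d × ℝ × (Fin (n + 1) → Eu d) | p.2.2 ∈ desc (n + 1) p.1 p.2.1} =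
        {p | dist p.1 (p.2.2 0) < p.2.1} ∩
        (fun p : Eu d × ℝ × (Fin (n + 1) → Eu d) =>
          (p.2.2 0, dist p.1 (p.2.2 0), Fin.tail p.2.2)) ⁻¹'
          {p : Eu d × ℝ × (Fin n → Eu d) | p.2.2 ∈ desc n p.1 p.2.1} := by
      ext p
      simp [desc]
    rw [h1]
    refine IsOpen.inter (isOpen_lt (by fun_prop) (by fun_prop)) (ih.preimage ?_)
    refine Continuous.prodMk (by fun_prop) (Continuous.prodMk (by fun_prop) ?_)
    unfold Fin.tail
    fun_prop

/-- the volume of the unit ball -/
noncomputable def vol1 (d : ℕ) : ℝ := (volume (Metric.ball (0 : Eu d) 1)).toReal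

theorem vol1_nonneg : 0 ≤ vol1 d := ENNReal.toReal_nonneg

/-- the radial integral -/
theorem radial (hd : 0 < d) (n : ℕ) (x : Eu d) (ρ : ℝ) (hρ : 0 ≤ ρ) :
    ∫⁻ y in Metric.ball x ρ, ENNReal.ofReal ((vol1 d * dist x y ^ d) ^ n / n.factorial) =
      ENNReal.ofReal ((vol1 d * ρ ^ d) ^ (n + 1) / (n + 1).factorial) := by
  have : Nonempty (Fin d) := ⟨⟨0, hd⟩⟩
  set G : ℝ → ℝ := indicator (Iio ρ) (fun t => (vol1 d * t ^ d) ^ n / n.factorial) with hG
  have h1 : ∫⁻ y in Metric.ball x ρ, ENNReal.ofReal ((vol1 d * dist x y ^ d) ^ n / n.factorial) =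
      ∫⁻ y : Eu d, ENNReal.ofReal (G ‖y‖) := by
    rw [← lintegral_sub_right_eq_self (fun y : Eu d => ENNReal.ofReal (G ‖y‖)) x,
      ← lintegral_indicator Metric.isOpen_ball.measurableSet]
    refine lintegral_congr fun y => ?_
    simp only [indicator, Metric.mem_ball, hG, mem_Iio, dist_comm y x, ← dist_eq_norm]
    split_ifs <;> simp
  have hint : Integrable (fun y : Eu d => G ‖y‖) := by
    rw [integrable_fun_norm_addHaar]
    have h2 : (fun y : ℝ => y ^ (Module.finrank ℝ (Eu d) - 1) • G y) =
        indicator (Iio ρ) (fun y => y ^ (Module.finrank ℝ (Eu d) - 1) •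
          ((vol1 d * y ^ d) ^ n / n.factorial)) := by
      ext y
      simp only [hG, indicator]
      split_ifs <;> simp
    rw [h2, IntegrableOn, integrable_indicator_iff measurableSet_Iio, IntegrableOn,
      Measure.restrict_restrict measurableSet_Iio]
    have h3 : IntegrableOn (fun y : ℝ => y ^ (Module.finrank ℝ (Eu d) - 1) •
          ((vol1 d * y ^ d) ^ n / n.factorial)) (Icc 0 ρ) := by
      apply ContinuousOn.integrableOn_Icc
      fun_prop
    refine h3.mono_set ?_
    rintro y ⟨hy1, hy2⟩
    exact ⟨(mem_Ioi.1 hy2).le, (mem_Iio.1 hy1).le⟩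
  have hnn : 0 ≤ᵐ[volume] fun y : Eu d => G ‖y‖ := by
    refine Filter.Eventually.of_forall fun y => ?_
    simp only [hG, indicator, Pi.zero_apply]
    have := vol1_nonneg (d := d)
    split_ifs <;> positivity
  rw [h1, ← ofReal_integral_eq_lintegral_ofReal hint hnn, integral_fun_norm_addHaar]
  congr 1
  have hfin : Module.finrank ℝ (Eu d) = d := by simp
  have h4 : ∫ y in Ioi (0 : ℝ), y ^ (Module.finrank ℝ (Eu d) - 1) • G y =
      ∫ y in (0 : ℝ)..ρ, y ^ (d * (n + 1) - 1) * (vol1 d ^ n / n.factorial) := by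
    have h5 : (fun y : ℝ => y ^ (Module.finrank ℝ (Eu d) - 1) • G y) =
        indicator (Iio ρ) (fun y => y ^ (d * (n + 1) - 1) * (vol1 d ^ n / n.factorial)) := by
      ext y
      simp only [hG, indicator]
      split_ifs with h
      · rw [hfin, smul_eq_mul, mul_pow, ← pow_mul]
        have : d * (n + 1) - 1 = (d - 1) + d * n := by
          rw [mul_add, mul_one]; omega
        rw [this, pow_add]
        ring
      · simp
    rw [h5, setIntegral_indicator measurableSet_Iio, Ioi_inter_Iio,
      ← integral_Ioc_eq_integral_Ioo, intervalIntegral.integral_of_le hρ]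
  rw [h4, intervalIntegral.integral_mul_const, integral_pow, hfin, nsmul_eq_mul, smul_eq_mul]
  have h6 : d * (n + 1) - 1 + 1 = d * (n + 1) := Nat.sub_add_cancel (Nat.mul_pos hd (Nat.succ_pos n))
  have h7 : ((d * (n + 1) - 1 : ℕ) : ℝ) + 1 = d * (n + 1) := by
    rw [← Nat.cast_add_one, h6]; push_cast; ring
  rw [h6, h7, zero_pow (by positivity), sub_zero]
  have h8 : (volume : Measure (Eu d)).real (Metric.ball 0 1) = vol1 d := rfl
  have h9 : (d : ℝ) ≠ 0 := by positivity
  have h10 : ((n.factorial : ℕ) : ℝ) ≠ 0 := by positivity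
  rw [h8, Nat.factorial_succ]
  push_cast
  rw [mul_pow, ← pow_mul]
  field_simp
  ring

theorem volume_desc_le (hd : 0 < d) (n : ℕ) (x : Eu d) (ρ : ℝ) (hρ : 0 ≤ ρ) :
    volume (desc n x ρ) ≤ ENNReal.ofReal ((vol1 d * ρ ^ d) ^ n / n.factorial) := by
  induction n generalizing x ρ with
  | zero =>
    simp only [desc, pow_zero, Nat.factorial_zero, Nat.cast_one, div_one, ENNReal.ofReal_one]
    rw [volume_pi, Measure.pi_univ]
    simp
  | succ n ih =>
    set T : Set (Eu d × (Fin n → Eu d)) :=
      {p | dist x p.1 < ρ ∧ p.2 ∈ desc n p.1 (dist x p.1)} with hT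
    have hTo : IsOpen T := by
      have hA : IsOpen {p : Eu d × (Fin n → Eu d) | dist x p.1 < ρ} :=
        isOpen_lt (by fun_prop) (by fun_prop)
      exact hA.inter ((isOpen_desc n).preimage (f := fun p : Eu d × (Fin n → Eu d) =>
        (p.1, dist x p.1, p.2)) (by fun_prop))
    have h1 : desc (n + 1) x ρ =
        (MeasurableEquiv.piFinSuccAbove (fun _ : Fin (n + 1) => Eu d) 0) ⁻¹' T := by
      ext y
      simp only [desc, mem_ofPred_eq, mem_preimage, hT, MeasurableEquiv.piFinSuccAbove_apply]
      rfl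
    rw [h1, (volume_preserving_piFinSuccAbove (fun _ : Fin (n + 1) => Eu d) 0).measure_preimage
      hTo.measurableSet.nullMeasurableSet]
    change (volume.prod volume : Measure (Eu d × (Fin n → Eu d))) T ≤ _
    rw [Measure.prod_apply hTo.measurableSet, ← radial hd n x ρ hρ,
      ← lintegral_indicator Metric.isOpen_ball.measurableSet]
    refine lintegral_mono fun y => ?_
    simp only [indicator, Metric.mem_ball, dist_comm y x]
    split_ifs with h
    · refine le_trans (measure_mono ?_) (ih y (dist x y) dist_nonneg)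
      intro z hz
      exact hz.2
    · have : Prod.mk y ⁻¹' T = ∅ := by
        ext z
        simp only [mem_preimage, hT, mem_ofPred_eq, mem_empty_iff_false, iff_false, not_and]
        intro h'
        exact absurd h' h
      rw [this, measure_empty]

/-- descending tuples starting in the ball of radius `R`, with first step less than `R` -/
def descFrom (n : ℕ) (R : ℝ) : Set (Fin (n + 1) → Eu d) :=
  {y | dist (y 0) 0 < R ∧ Fin.tail y ∈ desc n (y 0) R}

theorem isOpen_descFrom (n : ℕ) (R : ℝ) : IsOpen (descFrom n R : Set (Fin (n + 1) → Eu d)) := by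
  have hA : IsOpen {y : Fin (n + 1) → Eu d | dist (y 0) 0 < R} :=
    isOpen_lt (by fun_prop) (by fun_prop)
  refine hA.inter
    ((isOpen_desc n).preimage (f := fun y : Fin (n + 1) → Eu d => (y 0, R, Fin.tail y)) ?_)
  unfold Fin.tail
  fun_prop

theorem volume_descFrom_le (hd : 0 < d) (n : ℕ) (R : ℝ) (hR : 0 ≤ R) :
    volume (descFrom n R : Set (Fin (n + 1) → Eu d)) ≤
      ENNReal.ofReal ((vol1 d * R ^ d) ^ n / n.factorial) * volume (Metric.ball (0 : Eu d) R) := by
  set T : Set (Eu d × (Fin n → Eu d)) := {p | dist p.1 0 < R ∧ p.2 ∈ desc n p.1 R} with hT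
  have hTo : IsOpen T := by
    have hA : IsOpen {p : Eu d × (Fin n → Eu d) | dist p.1 0 < R} :=
      isOpen_lt (by fun_prop) (by fun_prop)
    exact hA.inter ((isOpen_desc n).preimage (f := fun p : Eu d × (Fin n → Eu d) => (p.1, R, p.2))
      (by fun_prop))
  have h1 : descFrom n R =
      (MeasurableEquiv.piFinSuccAbove (fun _ : Fin (n + 1) => Eu d) 0) ⁻¹' T := by
    ext y
    simp only [descFrom, mem_ofPred_eq, mem_preimage, hT, MeasurableEquiv.piFinSuccAbove_apply]
    rfl
  rw [h1, (volume_preserving_piFinSuccAbove (fun _ : Fin (n + 1) => Eu d) 0).measure_preimage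
    hTo.measurableSet.nullMeasurableSet]
  change (volume.prod volume : Measure (Eu d × (Fin n → Eu d))) T ≤ _
  rw [Measure.prod_apply hTo.measurableSet, ← setLIntegral_const,
    ← lintegral_indicator Metric.isOpen_ball.measurableSet]
  refine lintegral_mono fun y => ?_
  simp only [indicator, Metric.mem_ball]
  split_ifs with h
  · refine le_trans (measure_mono ?_) (volume_desc_le hd n y R hR)
    intro z hz
    exact hz.2
  · have : Prod.mk y ⁻¹' T = ∅ := by
      ext z
      simp only [mem_preimage, hT, mem_ofPred_eq, mem_empty_iff_false, iff_false, not_and]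
      intro h'
      exact absurd h' h
    rw [this, measure_empty]

/-- a set all of whose sections in one coordinate are null is null -/
theorem null_of_sections {m : ℕ} (b : Fin (m + 1)) (S : Set (Fin (m + 1) → Eu d))
    (hS : MeasurableSet S)
    (h : ∀ y : Fin m → Eu d, volume {z : Eu d | b.insertNth (α := fun _ => Eu d) z y ∈ S} = 0) :
    volume S = 0 := by
  set e := MeasurableEquiv.piFinSuccAbove (fun _ : Fin (m + 1) => Eu d) b with he
  have h1 : volume S = volume (e.symm ⁻¹' S) :=
    ((volume_preserving_piFinSuccAbove (fun _ : Fin (m + 1) => Eu d) b).symm.measure_preimage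
      hS.nullMeasurableSet).symm
  rw [h1]
  change (volume.prod volume : Measure (Eu d × (Fin m → Eu d))) _ = 0
  rw [Measure.prod_apply_symm (e.symm.measurable hS), lintegral_eq_zero_iff']
  · refine Filter.Eventually.of_forall fun y => ?_
    exact h y
  · exact (measurable_measure_prodMk_right (e.symm.measurable hS)).aemeasurable

/-- The moment bound for a random configuration with positions `X ω : ι → E` and set of present
indices `A ω`: the probability that some `m`-tuple of distinct present points lies in `S` is at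
most the volume of `S`. -/
def MomentBound {Ω ι : Type*} [MeasurableSpace Ω] (P : Measure Ω) (X : Ω → ι → Eu d)
    (A : Ω → Set ι) : Prop :=
  ∀ (m : ℕ) (S : Set (Fin m → Eu d)), MeasurableSet S →
    P {ω | ∃ i : Fin m → ι, Function.Injective i ∧ (∀ j, i j ∈ A ω) ∧
      (fun j => X ω (i j)) ∈ S} ≤ volume S

/-- `z` has strictly decreasing consecutive distances -/
def Descending {d : ℕ} (z : ℕ → Eu d) : Prop :=
  ∀ n, dist (z (n + 1)) (z (n + 2)) < dist (z n) (z (n + 1))

theorem mem_desc_of_descending (n : ℕ) (z : ℕ → Eu d) (hz : Descending z) (ρ : ℝ)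
    (h : dist (z 0) (z 1) < ρ) : (fun j : Fin n => z (j + 1)) ∈ desc n (z 0) ρ := by
  induction n generalizing z ρ with
  | zero => exact mem_univ _
  | succ n ih =>
    refine ⟨by simpa using h, ?_⟩
    have h1 := ih (fun k => z (k + 1)) (fun k => hz (k + 1)) (dist (z 0) (z 1)) (hz 0)
    have h2 : Fin.tail (fun j : Fin (n + 1) => z (j + 1)) = fun j : Fin n => z (j + 1 + 1) := by
      funext j
      simp [Fin.tail]
    rw [h2]
    simpa using h1

theorem mem_descFrom_of_descending (n : ℕ) (z : ℕ → Eu d) (hz : Descending z) (R : ℝ)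
    (h0 : dist (z 0) 0 < R) (h : dist (z 0) (z 1) < R) :
    (fun j : Fin (n + 1) => z j) ∈ descFrom n R := by
  refine ⟨by simpa using h0, ?_⟩
  have h1 := mem_desc_of_descending n z hz R h
  have h2 : Fin.tail (fun j : Fin (n + 1) => z j) = fun j : Fin n => z (j + 1) := by
    funext j
    simp [Fin.tail]
  rw [h2]
  simpa using h1

variable {Ω ι : Type*} [MeasurableSpace Ω] {P : Measure Ω} {X : Ω → ι → Eu d} {A : Ω → Set ι}

/-- Almost surely there is no infinite descending chain of distinct points. -/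
theorem ae_no_injective_chain (hd : 0 < d) (h : MomentBound P X A) :
    ∀ᵐ ω ∂P, ¬ ∃ x : ℕ → ι, Function.Injective x ∧ (∀ n, x n ∈ A ω) ∧
      Descending fun n => X ω (x n) := by
  rw [ae_iff]
  set B : ℕ → Set Ω := fun R => {ω | ∃ x : ℕ → ι, Function.Injective x ∧ (∀ n, x n ∈ A ω) ∧
    (Descending fun n => X ω (x n)) ∧ dist (X ω (x 0)) 0 < R ∧
      dist (X ω (x 0)) (X ω (x 1)) < R} with hB
  have hsub : {ω | ¬ ¬ ∃ x : ℕ → ι, Function.Injective x ∧ (∀ n, x n ∈ A ω) ∧
      Descending fun n => X ω (x n)} ⊆ ⋃ R, B R := by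
    intro ω hω
    obtain ⟨x, h1, h2, h3⟩ := not_not.1 hω
    obtain ⟨R, hR⟩ := exists_nat_gt (max (dist (X ω (x 0)) 0) (dist (X ω (x 0)) (X ω (x 1))))
    exact mem_iUnion.2 ⟨R, x, h1, h2, h3, (le_max_left _ _).trans_lt hR,
      (le_max_right _ _).trans_lt hR⟩
  refine measure_mono_null hsub (measure_iUnion_null fun R => ?_)
  have hle : ∀ n : ℕ, P (B R) ≤ ENNReal.ofReal ((vol1 d * (R : ℝ) ^ d) ^ n / n.factorial) *
      volume (Metric.ball (0 : Eu d) R) := by
    intro n
    refine le_trans (measure_mono ?_) ((h (n + 1) (descFrom n R)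
      (isOpen_descFrom n R).measurableSet).trans (volume_descFrom_le hd n R (Nat.cast_nonneg R)))
    rintro ω ⟨x, h1, h2, h3, h4, h5⟩
    exact ⟨fun j => x j, fun a b hab => Fin.ext (h1 hab), fun j => h2 j,
      mem_descFrom_of_descending n (fun n => X ω (x n)) h3 R h4 h5⟩
  have hlim : Tendsto (fun n : ℕ => ENNReal.ofReal ((vol1 d * (R : ℝ) ^ d) ^ n / n.factorial) *
      volume (Metric.ball (0 : Eu d) R)) atTop (𝓝 (0 * volume (Metric.ball (0 : Eu d) R))) := by
    refine ENNReal.Tendsto.mul_const ?_ (Or.inr measure_ball_lt_top.ne)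
    have := FloorSemiring.tendsto_pow_div_factorial_atTop (vol1 d * (R : ℝ) ^ d)
    simpa using ENNReal.tendsto_ofReal this
  rw [zero_mul] at hlim
  exact le_antisymm (ge_of_tendsto' hlim hle) zero_le

/-- Almost surely no `m`-tuple of distinct points lies in a given null set. -/
theorem ae_not_mem_of_null (h : MomentBound P X A) {m : ℕ} {S : Set (Fin m → Eu d)}
    (hS : MeasurableSet S) (h0 : volume S = 0) :
    ∀ᵐ ω ∂P, ∀ i : Fin m → ι, Function.Injective i → (∀ j, i j ∈ A ω) →
      (fun j => X ω (i j)) ∉ S := by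
  rw [ae_iff]
  refine le_antisymm ((measure_mono ?_).trans ((h m S hS).trans h0.le)) zero_le
  intro ω hω
  simp only [mem_ofPred_eq, not_forall, not_not] at hω
  obtain ⟨i, h1, h2, h3⟩ := hω
  exact ⟨i, h1, h2, h3⟩

theorem null_sphere (hd : 0 < d) (x : Eu d) (r : ℝ) : volume {z : Eu d | dist z x = r} = 0 := by
  have : Nonempty (Fin d) := ⟨⟨0, hd⟩⟩
  exact Measure.addHaar_sphere volume x r

theorem inj2 {ι : Type*} {a b : ι} (hab : a ≠ b) : Function.Injective ![a, b] := by
  intro i j hij
  fin_cases i <;> fin_cases j <;> first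
    | rfl
    | exact absurd hij hab
    | exact absurd hij hab.symm

theorem inj3 {ι : Type*} {a b c : ι} (hab : a ≠ b) (hbc : b ≠ c) (hac : a ≠ c) :
    Function.Injective ![a, b, c] := by
  intro i j hij
  fin_cases i <;> fin_cases j <;> first
    | rfl
    | exact absurd hij hab
    | exact absurd hij hab.symm
    | exact absurd hij hbc
    | exact absurd hij hbc.symm
    | exact absurd hij hac
    | exact absurd hij hac.symm

theorem inj4 {ι : Type*} {a b c e : ι} (hab : a ≠ b) (hac : a ≠ c) (hae : a ≠ e) (hbc : b ≠ c)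
    (hbe : b ≠ e) (hce : c ≠ e) : Function.Injective ![a, b, c, e] := by
  intro i j hij
  fin_cases i <;> fin_cases j <;> first
    | rfl
    | exact absurd hij hab
    | exact absurd hij hab.symm
    | exact absurd hij hbc
    | exact absurd hij hbc.symm
    | exact absurd hij hac
    | exact absurd hij hac.symm
    | exact absurd hij hae
    | exact absurd hij hae.symm
    | exact absurd hij hbe
    | exact absurd hij hbe.symm
    | exact absurd hij hce
    | exact absurd hij hce.symm

/-- Almost surely the points have distinct positions and all distances between points are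
distinct. -/
theorem ae_distinct (hd : 0 < d) (h : MomentBound P X A) :
    ∀ᵐ ω ∂P, (∀ a ∈ A ω, ∀ b ∈ A ω, a ≠ b → X ω a ≠ X ω b) ∧
      ∀ a ∈ A ω, ∀ b ∈ A ω, ∀ c ∈ A ω, ∀ e ∈ A ω, a ≠ b → c ≠ e →
        dist (X ω a) (X ω b) = dist (X ω c) (X ω e) → (a = c ∧ b = e) ∨ (a = e ∧ b = c) := by
  have h2 := ae_not_mem_of_null (m := 2) h (S := {y | dist (y 0) (y 1) = 0})
    (isClosed_eq (by fun_prop) (by fun_prop)).measurableSet (by
      refine null_of_sections 0 _ (isClosed_eq (by fun_prop) (by fun_prop)).measurableSet ?_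
      intro y
      refine measure_mono_null ?_ (null_sphere hd (y 0) 0)
      intro z hz
      simp only [Fin.insertNth_zero', mem_ofPred_eq] at hz
      exact hz)
  have h3 := ae_not_mem_of_null (m := 3) h (S := {y | dist (y 0) (y 1) = dist (y 1) (y 2)})
    (isClosed_eq (by fun_prop) (by fun_prop)).measurableSet (by
      refine null_of_sections 0 _ (isClosed_eq (by fun_prop) (by fun_prop)).measurableSet ?_
      intro y
      refine measure_mono_null ?_ (null_sphere hd (y 0) (dist (y 0) (y 1)))
      intro z hz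
      simp only [Fin.insertNth_zero', mem_ofPred_eq] at hz
      exact hz)
  have h4 := ae_not_mem_of_null (m := 4) h (S := {y | dist (y 0) (y 1) = dist (y 2) (y 3)})
    (isClosed_eq (by fun_prop) (by fun_prop)).measurableSet (by
      refine null_of_sections 0 _ (isClosed_eq (by fun_prop) (by fun_prop)).measurableSet ?_
      intro y
      refine measure_mono_null ?_ (null_sphere hd (y 0) (dist (y 1) (y 2)))
      intro z hz
      simp only [Fin.insertNth_zero', mem_ofPred_eq] at hz
      exact hz)
  filter_upwards [h2, h3, h4] with ω h2 h3 h4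
  have t2 : ∀ a ∈ A ω, ∀ b ∈ A ω, a ≠ b → dist (X ω a) (X ω b) ≠ 0 := by
    intro a ha b hb hab heq
    refine h2 ![a, b] (inj2 hab) ?_ ?_
    · intro j
      fin_cases j <;> assumption
    · simpa using heq
  have t3 : ∀ a ∈ A ω, ∀ b ∈ A ω, ∀ c ∈ A ω, a ≠ b → b ≠ c → a ≠ c →
      dist (X ω a) (X ω b) ≠ dist (X ω b) (X ω c) := by
    intro a ha b hb c hc hab hbc hac heq
    refine h3 ![a, b, c] (inj3 hab hbc hac) ?_ ?_
    · intro j
      fin_cases j <;> assumption
    · simpa using heq
  have t4 : ∀ a ∈ A ω, ∀ b ∈ A ω, ∀ c ∈ A ω, ∀ e ∈ A ω, a ≠ b → a ≠ c → a ≠ e → b ≠ c → b ≠ e →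
      c ≠ e → dist (X ω a) (X ω b) ≠ dist (X ω c) (X ω e) := by
    intro a ha b hb c hc e he h1 h2 h3 h5 h6 h7 heq
    refine h4 ![a, b, c, e] (inj4 h1 h2 h3 h5 h6 h7) ?_ ?_
    · intro j
      fin_cases j <;> assumption
    · simpa using heq
  refine ⟨fun a ha b hb hab heq => t2 a ha b hb hab (by rw [heq, dist_self]), ?_⟩
  intro a ha b hb c hc e he hab hce heq
  by_cases h1 : a = c
  · subst h1
    by_cases h5 : b = e
    · exact Or.inl ⟨rfl, h5⟩
    · exact absurd (by rw [dist_comm, heq]) (t3 b hb a ha e he (Ne.symm hab) hce h5)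
  by_cases h2 : a = e
  · subst h2
    by_cases h5 : b = c
    · exact Or.inr ⟨rfl, h5⟩
    · exact absurd (by rw [dist_comm, heq, dist_comm]) (t3 b hb a ha c hc (Ne.symm hab) h1 h5)
  by_cases h3 : b = c
  · subst h3
    exact absurd heq (t3 a ha b hb e he hab hce h2)
  by_cases h6 : b = e
  · subst h6
    exact absurd (by rw [heq, dist_comm]) (t3 a ha b hb c hc hab h3 h1)
  exact absurd heq (t4 a ha b hb c hc e he hab h1 h2 h3 h6 hce)

/-- **Loop erasure.** A descending sequence of points which visits every point finitely many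
times yields a descending sequence of distinct points. -/
theorem exists_injective_of_descending {ι : Type*} (X : ι → Eu d) (x : ℕ → ι)
    (hx : Descending fun n => X (x n)) (hfin : ∀ n, {k | x k = x n}.Finite) :
    ∃ t : ℕ → ℕ, StrictMono t ∧ Function.Injective (fun n => x (t n)) ∧
      Descending fun n => X (x (t n)) := by
  -- the last visit
  have hT : ∀ n, ∃ T, n ≤ T ∧ x T = x n ∧ ∀ k, x k = x n → k ≤ T := by
    intro n
    obtain ⟨T, hT1, hT2⟩ := (hfin n).exists_maximal ⟨n, rfl⟩
    refine ⟨T, ?_, hT1, ?_⟩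
    · by_contra hcon
      push Not at hcon
      exact absurd (hT2 (show n ∈ {k | x k = x n} from rfl) hcon.le) (not_le.2 hcon)
    · intro k hk
      by_contra hcon
      push Not at hcon
      exact absurd (hT2 (show k ∈ {k | x k = x n} from hk) hcon.le) (not_le.2 hcon)
  choose T hT1 hT2 hT3 using hT
  obtain ⟨t, ht0, hts⟩ : ∃ t : ℕ → ℕ, t 0 = T 0 ∧ ∀ n, t (n + 1) = T (t n + 1) :=
    ⟨fun n => Nat.rec (T 0) (fun _ s => T (s + 1)) n, rfl, fun n => rfl⟩
  have hlt : ∀ n, t n < t (n + 1) := by
    intro n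
    rw [hts]
    exact (Nat.lt_succ_self _).trans_le (hT1 _)
  have hmono : StrictMono t := strictMono_nat_of_lt_succ hlt
  have hlast : ∀ n k, x k = x (t n) → k ≤ t n := by
    intro n k hk
    cases n with
    | zero =>
      rw [ht0] at hk ⊢
      exact hT3 0 k (hk.trans (hT2 0))
    | succ n =>
      rw [hts] at hk ⊢
      exact hT3 _ k (hk.trans (hT2 _))
  have hstep : ∀ n, x (t (n + 1)) = x (t n + 1) := fun n => by rw [hts]; exact hT2 _
  have hanti : StrictAnti fun n => dist (X (x n)) (X (x (n + 1))) :=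
    strictAnti_nat_of_succ_lt fun n => hx n
  refine ⟨t, hmono, ?_, ?_⟩
  · intro a b hab
    have h1 := hlast a (t b) hab.symm
    have h2 := hlast b (t a) hab
    exact hmono.injective (le_antisymm h2 h1)
  · intro n
    have e1 : dist (X (x (t n))) (X (x (t (n + 1)))) = dist (X (x (t n))) (X (x (t n + 1))) := by
      rw [hstep n]
    have e2 : dist (X (x (t (n + 1)))) (X (x (t (n + 2)))) =
        dist (X (x (t (n + 1)))) (X (x (t (n + 1) + 1))) := by
      rw [hstep (n + 1)]
    have e3 : dist (X (x (t (n + 1)))) (X (x (t (n + 1) + 1))) <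
        dist (X (x (t n))) (X (x (t n + 1))) := hanti (hlt n)
    rw [← e1, ← e2] at e3
    exact e3

/-- In a locally finite configuration there is an infinite descending chain only if there is one of
distinct points. -/
theorem exists_injective_of_locallyFinite {ι : Type*} (X : ι → Eu d) (A : Set ι)
    (hA : ∀ R : ℝ, {a ∈ A | dist (X a) 0 < R}.Finite) (x : ℕ → ι) (hxA : ∀ n, x n ∈ A)
    (hx : Descending fun n => X (x n)) :
    ∃ y : ℕ → ι, Function.Injective y ∧ (∀ n, y n ∈ A) ∧ Descending fun n => X (y n) := by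
  have hanti : StrictAnti fun n => dist (X (x n)) (X (x (n + 1))) :=
    strictAnti_nat_of_succ_lt fun n => hx n
  have hfin : ∀ n, {k | x k = x n}.Finite := by
    intro n
    have hf := hA (dist (X (x n)) 0 + (dist (X (x 0)) (X (x 1)) + 1))
    refine Set.Finite.of_finite_image (f := fun k => x (k + 1)) (hf.subset ?_) ?_
    · rintro _ ⟨k, hk, rfl⟩
      refine ⟨hxA _, ?_⟩
      have h1 : dist (X (x k)) (X (x (k + 1))) ≤ dist (X (x 0)) (X (x 1)) :=
        hanti.antitone (Nat.zero_le k)
      have h2 : x k = x n := hk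
      rw [h2] at h1
      have h3 := dist_triangle (X (x (k + 1))) (X (x n)) 0
      rw [dist_comm] at h1
      linarith
    · intro k hk l hl hkl
      have hk' : x k = x n := hk
      have hl' : x l = x n := hl
      apply hanti.injective
      have hkl' : x (k + 1) = x (l + 1) := hkl
      simp only
      rw [hk', hl', hkl']
  obtain ⟨t, h1, h2, h3⟩ := exists_injective_of_descending X x hx hfin
  exact ⟨fun n => x (t n), h2, fun n => hxA _, h3⟩

/-- Almost surely there is no infinite descending chain, distinct points or not. -/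
theorem ae_no_chain (hd : 0 < d) (h : MomentBound P X A)
    (hA : ∀ᵐ ω ∂P, ∀ R : ℝ, {a ∈ A ω | dist (X ω a) 0 < R}.Finite) :
    ∀ᵐ ω ∂P, ¬ ∃ x : ℕ → ι, (∀ n, x n ∈ A ω) ∧ Descending fun n => X ω (x n) := by
  filter_upwards [ae_no_injective_chain hd h, hA] with ω h1 h2
  rintro ⟨x, hx1, hx2⟩
  obtain ⟨y, hy⟩ := exists_injective_of_locallyFinite (X ω) (A ω) h2 x hx1 hx2
  exact h1 ⟨y, hy⟩

end Pool.Agent.Lib_helper12.ASM
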