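import Pool.Agent.Lib_helper33.ASM.TStmts
import Pool.Agent.Lib_helper12.ASM.Chains

/-!
# MP_818a86: almost sure properties (StmtT2b, StmtT2c, StmtT2)
-/

set_option autoImplicit false

open MeasureTheory Set Filter Topology
open scoped ENNReal NNReal

namespace Pool.Agent.Lib_helper33.ASM

open Pool.Agent.Lib_helper12.ASM

/-! ## T2b -/

section

variable {d : ℕ} {ι : Type} [Fintype ι] [DecidableEq ι]

/-- a set all of whose sections in one coordinate are null is null -/
theorem null_of_update (b : ι) (S : Set (ι → Sp d)) (hS : MeasurableSet S)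
    (h : ∀ y : ι → Sp d, volume {z : Sp d | Function.update y b z ∈ S} = 0) : volume S = 0 := by
  have h1 : ∫⁻ y, S.indicator (1 : (ι → Sp d) → ℝ≥0∞) y ∂(Measure.pi fun _ : ι => (volume : Measure (Sp d))) =
      ∫⁻ y, (0 : ℝ≥0∞) ∂(Measure.pi fun _ : ι => (volume : Measure (Sp d))) := by
    refine lintegral_eq_of_lmarginal_eq {b} (measurable_one.indicator hS) measurable_const ?_
    funext y
    rw [lmarginal_singleton, lmarginal_singleton]
    simp only [lintegral_zero]
    have h2 : ∫⁻ z, S.indicator (1 : (ι → Sp d) → ℝ≥0∞) (Function.update y b z) =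
        ∫⁻ z, {z : Sp d | Function.update y b z ∈ S}.indicator 1 z := by
      refine lintegral_congr fun z => ?_
      simp only [indicator, mem_ofPred_eq]
      rfl
    rw [h2, lintegral_indicator_one, h y]
    exact hS.preimage (measurable_update y)
  rw [lintegral_indicator_one hS, lintegral_zero] at h1
  exact h1

theorem null_dist_eq (hd : 0 < d) {i j : ι} (hij : i ≠ j) (k l : ι) (hk : k ≠ i) (hl : l ≠ i) :
    volume {y : ι → Sp d | dist (y i) (y j) = dist (y k) (y l)} = 0 := by
  refine null_of_update i _ (isClosed_eq (by fun_prop) (by fun_prop)).measurableSet ?_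
  intro y
  refine measure_mono_null ?_ (null_sphere hd (y j) (dist (y k) (y l)))
  intro z hz
  simpa [Function.update_of_ne hij.symm, Function.update_of_ne hk, Function.update_of_ne hl] using hz

theorem null_dist_const (hd : 0 < d) {i j : ι} (hij : i ≠ j) (r : ℝ) :
    volume {y : ι → Sp d | dist (y i) (y j) = r} = 0 := by
  refine null_of_update i _ (isClosed_eq (by fun_prop) (by fun_prop)).measurableSet ?_
  intro y
  refine measure_mono_null ?_ (null_sphere hd (y j) r)
  intro z hz
  simpa [Function.update_of_ne hij.symm] using hz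

end

theorem stmtT2b : StmtT2b := by
  intro d hd ι _ _
  constructor
  · have h : ∀ i j k l : ι, ∀ᵐ y : ι → Sp d, i ≠ j → k ≠ l → dist (y i) (y j) = dist (y k) (y l) →
        (i = k ∧ j = l) ∨ (i = l ∧ j = k) := by
      intro i j k l
      by_cases hij : i ≠ j
      swap
      · exact Eventually.of_forall fun y h => absurd h hij
      by_cases hkl : k ≠ l
      swap
      · exact Eventually.of_forall fun y _ h => absurd h hkl
      by_cases hsame : (i = k ∧ j = l) ∨ (i = l ∧ j = k)
      · exact Eventually.of_forall fun y _ _ _ => hsame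
      have h0 : volume {y : ι → Sp d | dist (y i) (y j) = dist (y k) (y l)} = 0 := by
        by_cases h1 : k ≠ i ∧ l ≠ i
        · exact null_dist_eq hd hij k l h1.1 h1.2
        · have h2 : k ≠ j ∧ l ≠ j := by
            constructor
            · rintro rfl
              apply hsame
              right
              refine ⟨?_, rfl⟩
              by_contra h3
              exact h1 ⟨fun h => hij h.symm, fun h => h3 h.symm⟩
            · rintro rfl
              apply hsame
              left
              refine ⟨?_, rfl⟩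
              by_contra h3
              exact h1 ⟨fun h => h3 h.symm, fun h => hij h.symm⟩
          have h3 := null_dist_eq (d := d) hd hij.symm k l h2.1 h2.2
          simpa only [dist_comm] using h3
      have h1 : ∀ᵐ y : ι → Sp d, ¬ dist (y i) (y j) = dist (y k) (y l) := by
        rw [ae_iff]
        simpa using h0
      filter_upwards [h1] with y hy _ _ h4
      exact absurd h4 hy
    have h' : ∀ᵐ y : ι → Sp d, ∀ i j k l : ι, i ≠ j → k ≠ l →
        dist (y i) (y j) = dist (y k) (y l) → (i = k ∧ j = l) ∨ (i = l ∧ j = k) :=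
      ae_all_iff.2 fun i => ae_all_iff.2 fun j => ae_all_iff.2 fun k => ae_all_iff.2 fun l =>
        h i j k l
    exact h'
  · simp only [ae_all_iff]
    intro i j hij k
    rw [ae_iff]
    simpa using null_dist_const (d := d) hd hij (k : ℝ)

/-! ## T2c -/

section

variable {d : ℕ}

/-- descending tuples starting in the set `Q`, with first step less than `R` -/
def descQ (Q : Set (Sp d)) (n : ℕ) (R : ℝ) : Set (Fin (n + 1) → Sp d) :=
  {y | y 0 ∈ Q ∧ Fin.tail y ∈ desc n (y 0) R}

theorem volume_descQ_le (hd : 0 < d) (Q : Set (Sp d)) (hQ : MeasurableSet Q) (n : ℕ) (R : ℝ)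
    (hR : 0 ≤ R) :
    volume (descQ Q n R) ≤ ENNReal.ofReal ((vol1 d * R ^ d) ^ n / n.factorial) * volume Q := by
  set T : Set (Sp d × (Fin n → Sp d)) := {p | p.1 ∈ Q ∧ p.2 ∈ desc n p.1 R} with hT
  have hTm : MeasurableSet T := by
    have hA : MeasurableSet {p : Sp d × (Fin n → Sp d) | p.1 ∈ Q} := hQ.preimage measurable_fst
    exact hA.inter ((isOpen_desc n).preimage (f := fun p : Sp d × (Fin n → Sp d) => (p.1, R, p.2))
      (by fun_prop)).measurableSet
  have h1 : descQ Q n R =
      (MeasurableEquiv.piFinSuccAbove (fun _ : Fin (n + 1) => Sp d) 0) ⁻¹' T := by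
    ext y
    simp only [descQ, mem_ofPred_eq, mem_preimage, hT, MeasurableEquiv.piFinSuccAbove_apply]
    rfl
  rw [h1, (volume_preserving_piFinSuccAbove (fun _ : Fin (n + 1) => Sp d) 0).measure_preimage
    hTm.nullMeasurableSet]
  change (volume.prod volume : Measure (Sp d × (Fin n → Sp d))) T ≤ _
  rw [Measure.prod_apply hTm, ← setLIntegral_const, ← lintegral_indicator hQ]
  refine lintegral_mono fun y => ?_
  simp only [indicator]
  split_ifs with h
  · refine le_trans (measure_mono ?_) (volume_desc_le hd n y R hR)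
    intro z hz
    exact hz.2
  · have : Prod.mk y ⁻¹' T = ∅ := by
      ext z
      simp only [mem_preimage, hT, mem_ofPred_eq, mem_empty_iff_false, iff_false, not_and]
      intro h'
      exact absurd h' h
    rw [this, measure_empty]

theorem tail_mem_desc (m : ℕ) (y : Fin (m + 1) → Sp d) (t : ℝ)
    (h1 : ∀ i : Fin m, dist (y i.castSucc) (y i.succ) < t)
    (h2 : ∀ i j : Fin m, i < j →
      dist (y j.castSucc) (y j.succ) < dist (y i.castSucc) (y i.succ)) :
    Fin.tail y ∈ desc m (y 0) t := by
  induction m generalizing t with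
  | zero => exact mem_univ _
  | succ m ih =>
    refine ⟨by simpa [Fin.tail] using h1 0, ?_⟩
    have h3 : Fin.tail y 0 = Fin.tail y 0 := rfl
    refine ih (Fin.tail y) (dist (y 0) (Fin.tail y 0)) ?_ ?_
    · intro i
      have := h2 0 i.succ (Fin.succ_pos i)
      simpa [Fin.tail] using this
    · intro i j hij
      have := h2 i.succ j.succ (by simpa using hij)
      simpa [Fin.tail] using this

end

theorem stmtT2c : StmtT2c := by
  intro d hd m t ht Q hQ
  refine (measure_mono ?_).trans ((volume_descQ_le hd Q hQ m t ht).trans (le_of_eq ?_))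
  · rintro y ⟨h0, h1, h2⟩
    exact ⟨h0, tail_mem_desc m y t h1 h2⟩
  · have hV : volume (Metric.ball (0 : Sp d) t) = ENNReal.ofReal (vol1 d * t ^ d) := by
      have : Nonempty (Fin d) := ⟨⟨0, hd⟩⟩
      rw [Measure.addHaar_ball volume (0 : Sp d) ht, ENNReal.ofReal_mul vol1_nonneg, vol1,
        ENNReal.ofReal_toReal measure_ball_lt_top.ne, mul_comm]
      simp
    rw [hV, mul_comm, mul_div_assoc]
    congr 1
    rw [← ENNReal.ofReal_pow (by have := vol1_nonneg (d := d); positivity),
      ENNReal.ofReal_div_of_pos (by positivity), ENNReal.ofReal_natCast]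

/-! ## T2 -/

theorem stmtT2 (h : StmtT2a) : StmtT2 := by
  intro d p hp0 hp1 Ω _ P _ X c hd hX
  have hT := h d p hp0 hp1 Ω P X c hd hX
  have hM : MomentBound P (fun ω n => X n ω) (fun _ => (univ : Set ℕ)) := by
    intro m S hS
    refine le_trans ?_ (hT m S hS)
    refine le_trans (measure_mono ?_) (measure_iUnion_le _)
    rintro ω ⟨i, hi, -, hiS⟩
    exact mem_iUnion.2 ⟨⟨i, hi⟩, hiS⟩
  -- local finiteness
  have hlf : ∀ R : ℝ, ∀ᵐ ω ∂P, {n | ‖X n ω‖ ≤ R}.Finite := by
    intro R
    have h1 : ∑' n, P {ω | ‖X n ω‖ ≤ R} ≠ ⊤ := by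
      have h2 := hT 1 {y | ‖y 0‖ ≤ R} (isClosed_le (by fun_prop) (by fun_prop)).measurableSet
      have h3 : volume {y : Fin 1 → Sp d | ‖y 0‖ ≤ R} < ⊤ := by
        refine lt_of_le_of_lt (measure_mono ?_)
          (isCompact_closedBall (0 : Fin 1 → Sp d) (max R 0)).measure_lt_top
        intro y hy
        rw [mem_closedBall_zero_iff, pi_norm_le_iff_of_nonneg (le_max_right _ _)]
        intro i
        rw [Subsingleton.elim i 0]
        exact (show ‖y 0‖ ≤ R from hy).trans (le_max_left _ _)
      refine ne_top_of_le_ne_top (lt_of_le_of_lt h2 h3).ne ?_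
      have h4 : Function.Injective (fun n : ℕ =>
          (⟨fun _ : Fin 1 => n, Function.injective_of_subsingleton _⟩ :
            {s : Fin 1 → ℕ // Function.Injective s})) := by
        intro a b hab
        have := congrArg (fun s => s.1 0) hab
        exact this
      exact ENNReal.tsum_comp_le_tsum_of_injective h4 _
    have h2 := measure_limsup_atTop_eq_zero h1
    rw [ae_iff]
    refine measure_mono_null ?_ h2
    intro ω hω
    have hω' : {n | ‖X n ω‖ ≤ R}.Infinite := hω
    rw [limsup_eq_iInf_iSup_of_nat]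
    simp only [iInf_eq_iInter, iSup_eq_iUnion, mem_iInter, mem_iUnion]
    intro n
    obtain ⟨k, hk1, hk2⟩ := hω'.exists_gt n
    exact ⟨k, hk2.le, hk1⟩
  have hlf' : ∀ᵐ ω ∂P, ∀ R : ℕ, {n | ‖X n ω‖ ≤ R}.Finite := ae_all_iff.2 fun R => hlf R
  have hnat : ∀ᵐ ω ∂P, ∀ k : ℕ, ∀ i : Fin 2 → ℕ, Function.Injective i →
      (∀ j, i j ∈ (univ : Set ℕ)) → (fun j => X (i j) ω) ∉ {y | dist (y 0) (y 1) = (k : ℝ)} := by
    refine ae_all_iff.2 fun k => ?_
    refine ae_not_mem_of_null (m := 2) hM (isClosed_eq (by fun_prop) (by fun_prop)).measurableSet ?_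
    exact null_dist_const hd (by decide) _
  have hlfA : ∀ᵐ ω ∂P, ∀ R : ℝ, {a ∈ (univ : Set ℕ) | dist (X a ω) 0 < R}.Finite := by
    filter_upwards [hlf'] with ω hω R
    obtain ⟨N, hN⟩ := exists_nat_ge R
    refine (hω N).subset ?_
    rintro n ⟨-, hn⟩
    rw [dist_zero_right] at hn
    exact hn.le.trans hN
  filter_upwards [ae_distinct hd hM, hlf', hnat, ae_no_chain hd hM hlfA] with ω h1 h2 h3 h4
  refine ⟨?_, ?_, ?_, ?_⟩
  · intro i j k l hij hkl heq
    exact h1.2 i (mem_univ _) j (mem_univ _) k (mem_univ _) l (mem_univ _) hij hkl heq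
  · intro R
    obtain ⟨N, hN⟩ := exists_nat_ge R
    exact (h2 N).subset fun n hn => (show ‖X n ω‖ ≤ R from hn).trans hN
  · rintro ⟨s, hs⟩
    exact h4 ⟨s, fun _ => mem_univ _, fun n => (hs n).2⟩
  · intro i j hij k heq
    exact h3 k ![i, j] (inj2 hij) (fun _ => mem_univ _) heq

end Pool.Agent.Lib_helper33.ASM
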