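import Pool.Agent.Lib_helper12.ASM.T2
import Pool.Agent.Lib_helper73.ASM.T4a

/-!
# MP_818a86: generic positions and the cells (StmtT4b)
-/

set_option autoImplicit false

open MeasureTheory Set Filter Topology
open scoped ENNReal NNReal

namespace Pool.Agent.Lib_helper33.ASM

namespace T4bAux

variable {d : ℕ}

lemma measurableSet_cell (n k : ℕ) (s : Fin d → Fin (2 * n * k)) : MeasurableSet (cell n k s) := by
  have h : cell n k s = ⋂ i, {y : Sp d | ⌊(k : ℝ) * y i⌋ = (s i : ℤ) - n * k} := by
    ext y; simp [cell]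
  rw [h]
  refine MeasurableSet.iInter fun i => ?_
  have hm : Measurable fun y : Sp d => ⌊(k : ℝ) * y i⌋ := by
    apply Measurable.floor
    fun_prop
  exact hm (measurableSet_singleton _)

lemma volume_cell {n k : ℕ} (hk : 0 < k) (s : Fin d → Fin (2 * n * k)) :
    volume (cell n k s) = ENNReal.ofReal ((1 / k : ℝ) ^ d) := by
  have hk' : (0 : ℝ) < k := by exact_mod_cast hk
  have h := (PiLp.volume_preserving_toLp (Fin d)).measure_preimage
    (measurableSet_cell n k s).nullMeasurableSet
  rw [← h]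
  have h1 : (WithLp.toLp 2 : (Fin d → ℝ) → _) ⁻¹' (cell n k s) =
      Set.pi univ fun i => Ico ((((s i : ℤ) - n * k : ℤ) : ℝ) / k)
        ((((s i : ℤ) - n * k : ℤ) + 1 : ℝ) / k) := by
    ext x
    simp only [mem_preimage, cell, mem_ofPred_eq, Set.mem_pi, mem_univ, true_implies, mem_Ico]
    refine forall_congr' fun i => ?_
    rw [Int.floor_eq_iff, div_le_iff₀ hk', lt_div_iff₀ hk', mul_comm (x i) (k : ℝ)]
  rw [h1, Real.volume_pi_Ico]
  have h2 : ∀ i : Fin d, ((((s i : ℤ) - n * k : ℤ) + 1 : ℝ) / k) - ((((s i : ℤ) - n * k : ℤ) : ℝ) / k) =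
      1 / k := by
    intro i
    ring
  simp only [h2, Finset.prod_const, Finset.card_univ, Fintype.card_fin]
  rw [ENNReal.ofReal_pow (by positivity)]

lemma exists_gen (hd : 0 < d) (n : ℕ) {k : ℕ} (hk : 0 < k) :
    ∃ y : (Fin d → Fin (2 * n * k)) → Sp d, Gen y ∧ ∀ s, y s ∈ cell n k s := by
  have h1 := (stmtT2b d hd (Fin d → Fin (2 * n * k))).1
  have h2 : volume (Set.pi univ fun s : Fin d → Fin (2 * n * k) => cell n k s) ≠ 0 := by
    rw [volume_pi_pi]
    refine Finset.prod_ne_zero_iff.2 fun s _ => ?_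
    rw [volume_cell hk]
    have hk' : (0 : ℝ) < k := by exact_mod_cast hk
    simp only [ne_eq, ENNReal.ofReal_eq_zero, not_le]
    positivity
  have h3 := (frequently_ae_mem_iff.2 h2).and_eventually h1
  obtain ⟨y, hy1, hy2⟩ := h3.exists
  exact ⟨y, hy2, fun s => hy1 s (mem_univ s)⟩

lemma cb_of_mem {n k : ℕ} (hk : 0 < k) {s : Fin d → Fin (2 * n * k)} {y : Sp d}
    (h : y ∈ cell n k s) (i : Fin d) : cb y i = ((s i : ℤ) - n * k) / (k : ℤ) := by
  have hk' : (0 : ℝ) < k := by exact_mod_cast hk
  have h1 := h i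
  rw [← h1]
  have h2 : y i = ((k : ℝ) * y i) / (k : ℕ) := by field_simp
  change ⌊y i⌋ = _
  conv_lhs => rw [h2]
  exact Int.floor_div_natCast _ _

lemma cell_nonempty {n k : ℕ} (hk : 0 < k) (s : Fin d → Fin (2 * n * k)) :
    (cell n k s).Nonempty := by
  have hk' : (0 : ℝ) < k := by exact_mod_cast hk
  refine ⟨WithLp.toLp 2 fun i => ((((s i : ℤ) - n * k : ℤ) : ℝ) / k), fun i => ?_⟩
  change ⌊(k : ℝ) * ((((s i : ℤ) - n * k : ℤ) : ℝ) / k)⌋ = _
  rw [mul_div_cancel₀ _ hk'.ne', Int.floor_intCast]

lemma card_cells {n k : ℕ} (hk : 0 < k) (j : Fin d → ℤ) (hj : ∀ i, -(n : ℤ) ≤ j i ∧ j i < n) :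
    Set.ncard {s : Fin d → Fin (2 * n * k) | ∃ y ∈ cell n k s, cb y = j} = k ^ d := by
  have hb : ∀ i, (j i + n).toNat < 2 * n := by
    intro i
    have := hj i
    omega
  have hlt : ∀ (i : Fin d) (r : Fin k), (j i + n).toNat * k + r < 2 * n * k := by
    intro i r
    have h1 := hb i
    have h2 := r.2
    calc (j i + n).toNat * k + r < (j i + n).toNat * k + k := by omega
      _ = ((j i + n).toNat + 1) * k := by ring
      _ ≤ 2 * n * k := Nat.mul_le_mul_right k h1
  set f : (Fin d → Fin k) → (Fin d → Fin (2 * n * k)) :=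
    fun r i => ⟨(j i + n).toNat * k + r i, hlt i (r i)⟩ with hf
  have hinj : Function.Injective f := by
    intro r r' h
    funext i
    have := congrArg (fun s => ((s i : Fin (2 * n * k)) : ℕ)) h
    simp only [hf] at this
    apply Fin.ext
    omega
  have heq : {s : Fin d → Fin (2 * n * k) | ∃ y ∈ cell n k s, cb y = j} = f '' univ := by
    ext s
    constructor
    · rintro ⟨y, hy, hc⟩
      have h1 : ∀ i, ((s i : ℤ) - n * k) / (k : ℤ) = j i := by
        intro i
        rw [← cb_of_mem hk hy i, hc]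
      have hkZ : (0 : ℤ) < k := by exact_mod_cast hk
      have h2 : ∀ i, j i * k ≤ (s i : ℤ) - n * k ∧ (s i : ℤ) - n * k < (j i + 1) * k := by
        intro i
        constructor
        · rw [← h1 i]
          exact Int.ediv_mul_le _ hkZ.ne'
        · rw [← h1 i]
          exact Int.lt_ediv_add_one_mul_self _ hkZ
      have h3 : ∀ i, (((j i + n).toNat * k : ℕ) : ℤ) = (j i + n) * k := by
        intro i
        push_cast
        rw [Int.toNat_of_nonneg (by have := hj i; linarith)]
      refine ⟨fun i => ⟨(s i : ℕ) - (j i + n).toNat * k, ?_⟩, mem_univ _, ?_⟩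
      · have h4 := h2 i
        have h5 := h3 i
        zify
        have h6 : (j i + n).toNat * k ≤ (s i : ℕ) := by
          zify
          push_cast at h5
          nlinarith
        rw [Nat.cast_sub h6, h5]
        nlinarith
      · funext i
        apply Fin.ext
        simp only [hf]
        have h4 := h2 i
        have h5 := h3 i
        have h6 : (j i + n).toNat * k ≤ (s i : ℕ) := by
          zify
          push_cast at h5
          nlinarith
        omega
    · rintro ⟨r, -, rfl⟩
      obtain ⟨y, hy⟩ := cell_nonempty hk (f r)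
      refine ⟨y, hy, ?_⟩
      funext i
      rw [cb_of_mem hk hy i]
      have h3 : (((j i + n).toNat * k : ℕ) : ℤ) = (j i + n) * k := by
        push_cast
        rw [Int.toNat_of_nonneg (by have := hj i; linarith)]
      have h4 : (((f r i : Fin (2 * n * k)) : ℕ) : ℤ) = (j i + n) * k + (r i : ℕ) := by
        simp only [hf]
        rw [Nat.cast_add, h3]
      rw [h4]
      have h5 : (j i + n) * k + ((r i : ℕ) : ℤ) - n * k = (r i : ℕ) + j i * k := by ring
      have hkZ : (k : ℤ) ≠ 0 := by exact_mod_cast hk.ne'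
      rw [h5, Int.add_mul_ediv_right _ _ hkZ, Int.ediv_eq_zero_of_lt (by positivity)
        (by exact_mod_cast (r i).2), zero_add]
  rw [heq, Set.ncard_image_of_injective _ hinj, Set.ncard_univ, Nat.card_eq_fintype_card]
  simp

end T4bAux

theorem stmtT4b : StmtT4b := by
  intro d hd n k hn hk
  refine ⟨T4bAux.exists_gen hd n hk, fun s => ⟨T4bAux.measurableSet_cell n k s,
    T4bAux.volume_cell hk s⟩, ?_, fun j hj => T4bAux.card_cells hk j hj, ?_, ?_⟩
  · intro s s' hss
    rw [Set.disjoint_left]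
    intro y hy hy'
    exact hss (Disc.cell_unique hy hy')
  · intro s y hy y' hy'
    exact Disc.cell_cb hk hy hy'
  · intro s y hy
    exact Disc.cell_sub_box hk hy

end Pool.Agent.Lib_helper33.ASM
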